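import Pool.Agent.Helper78.FF.Main

/-!
Growth of the potential along a whole colour class, and the bound `5 ω` for walls.
-/

namespace Pool.Agent.Helper78.FF

variable {α V : Type*} [LinearOrder α]

section loc

variable {P C : Set V} {a b : V → α} {l l' κL SL κR SR κL' SL' κR' SR' : α → ℝ} {s v : ℝ}

/-- The situation `Ctx` together with a good interval is contradictory. -/
lemma Ctx.false [Finite α] [Finite V]
    (c : Ctx P C a b l l' κL SL κR SR κL' SL' κR' SR' s v) {i : V} (hi : i ∈ P)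
    (hg : GoodI a b l κL SL κR SR v i) : False := by
  -- from a left situation
  have left : ∀ {β : Type _} [LinearOrder β] [Finite β] {a b : V → β}
      {l l' κL SL κR SR κL' SL' κR' SR' : β → ℝ}
      (_ : Ctx P C a b l l' κL SL κR SR κL' SL' κR' SR' s v) (i j : V),
      LT P C a b l κL SL κR SR v j i → False := by
    intro β _ _ a b l l' κL SL κR SR κL' SL' κR' SR' c i j hij
    obtain ⟨I, ⟨J, hIJ⟩, hbest⟩ := Set.exists_min_image
      {i | ∃ j, LT P C a b l κL SL κR SR v j i} b (Set.toFinite _) ⟨i, j, hij⟩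
    have hIP := hIJ.1
    obtain ⟨w₀, ⟨hw1, hw2⟩, hw3⟩ := Set.exists_min_image (Set.Icc (a I) (b I)) l
      (Set.toFinite _) ⟨a I, le_rfl, c.g.hab I hIP⟩
    exact Sit.false ⟨c, hIJ, fun i j h => hbest i ⟨j, h⟩, hw1, hw2,
      fun w h1 h2 => hw3 w ⟨h1, h2⟩⟩
  obtain ⟨k, hk, hk1, hk2, hk3⟩ := exists_inclMin (a := a) (b := b) hi
  have hkg : GoodI a b l κL SL κR SR v k := fun y hy1 hy2 => hg y (hk1.trans hy1) (hy2.trans hk2)
  obtain ⟨j, hj, hj1, hj2⟩ := c.g.htouch k hk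
  have hjP := c.g.hC hj
  rcases lt_or_ge (a j) (a k) with h1 | h1
  · refine left c k j ⟨hk, hkg, hk3, hj, h1, hj1, ?_⟩
    by_contra hcon
    exact c.not_covered hk hj h1.le (not_lt.1 hcon) hkg
  · have h2 : b k < b j := by
      by_contra hcon
      refine c.not_covered hjP hj le_rfl le_rfl fun y hy1 hy2 => ?_
      exact hkg y (h1.trans hy1) (hy2.trans (not_lt.1 hcon))
    have h3 : a k < a j := by
      refine lt_of_le_of_ne h1 fun h => ?_
      exact c.not_covered hk hj h.ge h2.le hkg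
    have hmin : InclMin (α := αᵒᵈ) P b a k := fun n hn h4 h5 => (hk3 n hn h5 h4).symm
    exact left c.dual k j ⟨hk, hkg.dual, hmin, hj, h2, hj2, h3⟩

end loc

/-- a small positive number below finitely many positive bounds -/
lemma exists_small {ι : Type*} [Finite ι] (f : ι → ℝ) {ε : ℝ} (hε : 0 < ε) :
    ∃ s, 0 < s ∧ s ≤ ε ∧ ∀ i, 0 < f i → s ≤ f i := by
  classical
  rcases Set.eq_empty_or_nonempty {i | 0 < f i} with h | h
  · refine ⟨ε, hε, le_rfl, fun i hi => ?_⟩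
    have : i ∈ {i | 0 < f i} := hi
    rw [h] at this
    exact this.elim
  · obtain ⟨j, hj, hj'⟩ := Set.exists_min_image _ f (Set.toFinite _) h
    exact ⟨min ε (f j), lt_min hε hj, min_le_left _ _,
      fun i hi => (min_le_right _ _).trans (hj' i hi)⟩

lemma exists_small_sys [Finite α] (l κ S : α → ℝ) {ε : ℝ} (hε : 0 < ε) :
    ∃ s, 0 < s ∧ s ≤ ε ∧ ∀ r, 0 < r → r ≤ s → Small l κ S r := by
  obtain ⟨s₀, h1, h2, h3⟩ := exists_small (fun z : α => l z) hε
  obtain ⟨s₁, h4, h5, h6⟩ := exists_small (fun p : α × α => l p.2 - κ p.1) h1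
  obtain ⟨s₂, h7, h8, h9⟩ := exists_small (fun p : α × α => 2 * l p.2 - S p.1) h4
  obtain ⟨s₃, h10, h11, h12⟩ := exists_small
    (fun p : α × α => l p.2 + S p.2 / 2 - S p.1) h7
  refine ⟨s₃, h10, by linarith, fun r _ hr => ⟨fun z hz => ?_, fun x z hz => ?_,
    fun x z hz => ?_, fun x y hy => ?_⟩⟩
  · linarith [h3 z hz]
  · linarith [h6 (x, z) (by simpa using hz)]
  · linarith [h9 (x, z) (by simpa using hz)]
  · linarith [h12 (x, y) (by simpa using hy)]

/-- There is a good interval at level `v` for the load `l`. -/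
def GoodAt (P : Set V) (a b : V → α) (l : α → ℝ) (v : ℝ) : Prop :=
  ∃ κL SL κR SR : α → ℝ, SysL P a b l κL SL ∧ SysR P a b l κR SR ∧
    ∃ i ∈ P, GoodI a b l κL SL κR SR v i

lemma GoodP.mono {l κL SL κR SR l' κL' SL' κR' SR' : α → ℝ} {v : ℝ} {x : α}
    (h : GoodP l κL SL κR SR v x) (h1 : l x ≤ l' x) (h2 : κL x ≤ κL' x) (h3 : SL x ≤ SL' x)
    (h4 : κR x ≤ κR' x) (h5 : SR x ≤ SR' x) : GoodP l' κL' SL' κR' SR' v x := by
  obtain ⟨hA, hB, hD⟩ := h
  refine ⟨?_, ?_, ?_⟩ <;> linarith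

lemma GoodAt.mono [Finite α] [Finite V] {P P' : Set V} {a b : V → α} {l : α → ℝ} {v : ℝ}
    (h : GoodAt P a b l v) (hP : P ⊆ P') (hab : ∀ i ∈ P', a i ≤ b i) : GoodAt P' a b l v := by
  obtain ⟨κL, SL, κR, SR, hL, hR, i, hi, hg⟩ := h
  obtain ⟨κL', SL', hL'⟩ := exists_sysL P' a b hab l
  obtain ⟨κR', SR', hR'⟩ := exists_sysR P' a b hab l
  obtain ⟨m1, m2⟩ := hL.mono hL' hP fun _ => le_rfl
  obtain ⟨m3, m4⟩ := hR.mono hR' hP fun _ => le_rfl
  exact ⟨κL', SL', κR', SR', hL', hR', i, hP hi, fun x h1 h2 =>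
    (hg x h1 h2).mono le_rfl (m1 x) (m2 x) (m3 x) (m4 x)⟩

lemma GoodAt.bound {P : Set V} {a b : V → α} {l : α → ℝ} {v : ℝ}
    (h : GoodAt P a b l v) (hab : ∀ i ∈ P, a i ≤ b i) (hl : ∀ x, 0 ≤ l x) :
    ∃ x, v ≤ 5 * l x := by
  obtain ⟨κL, SL, κR, SR, hL, hR, i, hi, hg⟩ := h
  refine ⟨a i, ?_⟩
  have h1 := (hg (a i) le_rfl (hab i hi)).1
  linarith [hL.S_le (a i), hL.κ_le hab hl (a i), hR.κ_le hab hl (a i)]

lemma GoodAt.base [Finite α] [Finite V] {P : Set V} {a b : V → α} {l : α → ℝ} {i : V}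
    (hi : i ∈ P) (hab : ∀ i ∈ P, a i ≤ b i) (h1 : ∀ x, a i ≤ x → x ≤ b i → 1 ≤ l x) :
    GoodAt P a b l 1 := by
  obtain ⟨κL, SL, hL⟩ := exists_sysL P a b hab l
  obtain ⟨κR, SR, hR⟩ := exists_sysR P a b hab l
  refine ⟨κL, SL, κR, SR, hL, hR, i, hi, fun x hx1 hx2 => ?_⟩
  have h2 := h1 x hx1 hx2
  refine ⟨?_, ?_, ?_⟩
  · linarith [hL.S0 x, hR.κ0 x]
  · linarith [hR.S0 x, hL.κ0 x]
  · linarith [hL.S0 x, hR.S0 x]

/-- **Growth lemma**: if the class `C ⊆ P` consists of disjoint intervals, every interval of `P`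
meets a member of `C`, and the load is increased by one on the union of `C`, then the level of the
potential increases by at least one. -/
theorem GoodAt.grow [Finite α] [Finite V] {P C : Set V} {a b : V → α} {l cov : α → ℝ} {v : ℝ}
    (h : GoodAt P a b l v) (hab : ∀ i ∈ P, a i ≤ b i) (hl : ∀ x, 0 ≤ l x) (hC : C ⊆ P)
    (hdis : ∀ i ∈ C, ∀ j ∈ C, i ≠ j → b i < a j ∨ b j < a i)
    (htouch : ∀ i ∈ P, ∃ j ∈ C, a i ≤ b j ∧ a j ≤ b i)
    (hcov : ∀ j ∈ C, ∀ x, a j ≤ x → x ≤ b j → cov x = 1) (hcov0 : ∀ x, 0 ≤ cov x) :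
    GoodAt P a b (fun x => l x + cov x) (v + 1) := by
  classical
  set L : ℝ → α → ℝ := fun t x => l x + t * cov x with hLdef
  choose κL SL hL using fun t : ℝ => exists_sysL P a b hab (L t)
  choose κR SR hR using fun t : ℝ => exists_sysR P a b hab (L t)
  have hLmono : ∀ t t' : ℝ, t ≤ t' → ∀ x, L t x ≤ L t' x := fun t t' htt x => by
    simp only [hLdef]
    nlinarith [hcov0 x]
  have hLnn : ∀ t : ℝ, 0 ≤ t → ∀ x, 0 ≤ L t x := fun t ht x => by
    simp only [hLdef]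
    nlinarith [hcov0 x, hl x]
  set T : Set ℝ := {t | 0 ≤ t ∧ t ≤ 1 ∧
    ∃ i ∈ P, GoodI a b (L t) (κL t) (SL t) (κR t) (SR t) (v + t) i} with hT
  have h0 : (0 : ℝ) ∈ T := by
    obtain ⟨κL₀, SL₀, κR₀, SR₀, hL₀, hR₀, i, hi, hg⟩ := h
    have hl0 : ∀ x, l x ≤ L 0 x := fun x => by simp [hLdef]
    obtain ⟨m1, m2⟩ := hL₀.mono (hL 0) le_rfl hl0
    obtain ⟨m3, m4⟩ := hR₀.mono (hR 0) le_rfl hl0
    refine ⟨le_rfl, zero_le_one, i, hi, fun x h1 h2 => ?_⟩
    rw [add_zero]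
    exact (hg x h1 h2).mono (hl0 x) (m1 x) (m2 x) (m3 x) (m4 x)
  have hbdd : BddAbove T := ⟨1, fun t ht => ht.2.1⟩
  set τ := sSup T with hτ
  have hτ0 : 0 ≤ τ := le_csSup hbdd h0
  have hτ1 : τ ≤ 1 := csSup_le ⟨0, h0⟩ fun t ht => ht.2.1
  -- `τ ∈ T`
  have hτT : τ ∈ T := by
    refine ⟨hτ0, hτ1, ?_⟩
    by_contra hcon
    push Not at hcon
    have hδ : ∀ i : V, ∃ δ : ℝ, 0 < δ ∧ (i ∈ P → ∀ t, t ≤ τ → τ - δ < t →
        ¬ GoodI a b (L t) (κL t) (SL t) (κR t) (SR t) (v + t) i) := by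
      intro i
      by_cases hi : i ∈ P
      · have h1 := hcon i hi
        unfold GoodI at h1
        push Not at h1
        obtain ⟨x, hx1, hx2, hx3⟩ := h1
        unfold GoodP at hx3
        have hx4 : 2 * L τ x + SL τ x + κR τ x < v + τ ∨ 2 * L τ x + SR τ x + κL τ x < v + τ ∨
            7 * L τ x + 2 * SL τ x + 2 * SR τ x < 3 * (v + τ) := by
          by_contra hno
          push Not at hno
          exact hx3 ⟨hno.1, hno.2.1, hno.2.2⟩
        have hm : ∀ t, t ≤ τ → L t x ≤ L τ x ∧ κL t x ≤ κL τ x ∧ SL t x ≤ SL τ x ∧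
            κR t x ≤ κR τ x ∧ SR t x ≤ SR τ x := fun t ht => by
          obtain ⟨m1, m2⟩ := (hL t).mono (hL τ) le_rfl (hLmono t τ ht)
          obtain ⟨m3, m4⟩ := (hR t).mono (hR τ) le_rfl (hLmono t τ ht)
          exact ⟨hLmono t τ ht x, m1 x, m2 x, m3 x, m4 x⟩
        rcases hx4 with hx4 | hx4 | hx4
        · refine ⟨v + τ - (2 * L τ x + SL τ x + κR τ x), by linarith, fun _ t ht1 ht2 hg => ?_⟩
          have h5 := (hg x hx1 hx2).1
          obtain ⟨m0, m1, m2, m3, m4⟩ := hm t ht1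
          linarith
        · refine ⟨v + τ - (2 * L τ x + SR τ x + κL τ x), by linarith, fun _ t ht1 ht2 hg => ?_⟩
          have h5 := (hg x hx1 hx2).2.1
          obtain ⟨m0, m1, m2, m3, m4⟩ := hm t ht1
          linarith
        · refine ⟨(3 * (v + τ) - (7 * L τ x + 2 * SL τ x + 2 * SR τ x)) / 3, by linarith,
            fun _ t ht1 ht2 hg => ?_⟩
          have h5 := (hg x hx1 hx2).2.2
          obtain ⟨m0, m1, m2, m3, m4⟩ := hm t ht1
          linarith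
      · exact ⟨1, one_pos, fun h => (hi h).elim⟩
    choose δ hδ1 hδ2 using hδ
    obtain ⟨s, hs1, -, hs3⟩ := exists_small δ one_pos
    obtain ⟨t, htT, ht⟩ := exists_lt_of_lt_csSup (s := T) ⟨0, h0⟩
      (show τ - s < sSup T by rw [← hτ]; linarith)
    obtain ⟨i, hi, hg⟩ := htT.2.2
    exact hδ2 i hi t (le_csSup hbdd htT) (by linarith [hs3 i (hδ1 i)]) hg
  -- `τ = 1`
  have hτe : τ = 1 := by
    by_contra hne
    have hlt : τ < 1 := lt_of_le_of_ne hτ1 hne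
    obtain ⟨s₁, h1, h2, h3⟩ := exists_small_sys (L τ) (κL τ) (SL τ) (sub_pos.2 hlt)
    obtain ⟨s₂, h4, h5, h6⟩ := exists_small_sys (L τ) (κR τ) (SR τ) h1
    obtain ⟨s₃, h7, h8, h9⟩ := exists_small
      (fun x : α => 2 * L τ x + SL τ x + κR τ x - (v + τ)) h4
    obtain ⟨s₄, h10, h11, h12⟩ := exists_small
      (fun x : α => 2 * L τ x + SR τ x + κL τ x - (v + τ)) h7
    obtain ⟨s, h13, h14, h15⟩ := exists_small
      (fun x : α => (7 * L τ x + 2 * SL τ x + 2 * SR τ x - 3 * (v + τ)) / 3) h10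
    have hg : GStep P a b C (L τ) (L (τ + s)) s := by
      refine ⟨hab, hLnn τ hτ0, hLmono _ _ (by linarith), hC, hdis, htouch, h13, ?_⟩
      intro j hj x hx1 hx2
      simp only [hLdef, hcov j hj x hx1 hx2]
      linarith
    obtain ⟨i, hi, hgood⟩ := hτT.2.2
    have hno : ¬ ∃ i ∈ P, GoodI a b (L (τ + s)) (κL (τ + s)) (SL (τ + s)) (κR (τ + s))
        (SR (τ + s)) (v + τ + s) i := by
      rintro ⟨i, hi, hg⟩
      have : τ + s ∈ T := ⟨by linarith, by linarith, i, hi, by rw [← add_assoc]; exact hg⟩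
      have := le_csSup hbdd this
      linarith
    push Not at hno
    refine Ctx.false (C := C) (s := s) (v := v + τ) (κL' := κL (τ + s)) (SL' := SL (τ + s))
      (κR' := κR (τ + s)) (SR' := SR (τ + s)) (l' := L (τ + s))
      ⟨hg, hL τ, hR τ, hL _, hR _, h3 s h13 (by linarith), h6 s h13 (by linarith), ?_, ?_, ?_,
        hno⟩ hi hgood
    · intro x hx
      linarith [h9 x (by linarith)]
    · intro x hx
      linarith [h12 x (by linarith)]
    · intro x hx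
      linarith [h15 x (by linarith)]
  obtain ⟨i, hi, hg⟩ := hτT.2.2
  rw [hτe] at hg
  have hL1 : L 1 = fun x => l x + cov x := by
    funext x
    simp [hLdef]
  have hL' := hL 1
  have hR' := hR 1
  rw [hL1] at hL' hR' hg
  exact ⟨κL 1, SL 1, κR 1, SR 1, hL', hR', i, hi, hg⟩

end Pool.Agent.Helper78.FF
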