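import Pool.Agent.Helper78.FF.Sys

/-!
Growth of the left potentials when the load is increased on a family `C` of disjoint intervals
which meets every interval.
-/

namespace Pool.Agent.Helper78.FF

variable {α V : Type*} [LinearOrder α]

/-- Growth step: `l'` is at least `l`, at least `l + s` on the members of `C`, every interval of
`P` meets a member of `C`, and `s` is small. -/
structure GStep (P : Set V) (a b : V → α) (C : Set V) (l l' : α → ℝ) (s : ℝ) : Prop where
  hab : ∀ i ∈ P, a i ≤ b i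
  hl : ∀ x, 0 ≤ l x
  hll : ∀ x, l x ≤ l' x
  hC : C ⊆ P
  hdis : ∀ i ∈ C, ∀ j ∈ C, i ≠ j → b i < a j ∨ b j < a i
  htouch : ∀ i ∈ P, ∃ j ∈ C, a i ≤ b j ∧ a j ≤ b i
  hs : 0 < s
  hcov : ∀ j ∈ C, ∀ x, a j ≤ x → x ≤ b j → l x + s ≤ l' x

lemma GStep.dual {P C : Set V} {a b : V → α} {l l' : α → ℝ} {s : ℝ}
    (g : GStep P a b C l l' s) : GStep (α := αᵒᵈ) P b a C l l' s where
  hab := g.hab
  hl := g.hl
  hll := g.hll
  hC := g.hC
  hdis := fun i hi j hj hij => (g.hdis i hi j hj hij).symm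
  htouch := fun i hi => (g.htouch i hi).imp fun _ h => ⟨h.1, h.2.2, h.2.1⟩
  hs := g.hs
  hcov := fun j hj x h1 h2 => g.hcov j hj x h2 h1

/-- smallness of `s` with respect to the left potentials -/
structure Small (l κ S : α → ℝ) (s : ℝ) : Prop where
  h0 : ∀ z, 0 < l z → s ≤ l z
  h1 : ∀ x z, κ x < l z → κ x + s ≤ l z
  h2 : ∀ x z, S x < 2 * l z → S x + s ≤ 2 * l z
  h3 : ∀ x y, S x < l y + S y / 2 → S x + s ≤ l y + S y / 2

/-- `x` is uncovered and `J` is the last member of `C` to the left of `x` -/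
structure LastL (C : Set V) (a b : V → α) (J : V) (x : α) : Prop where
  mem : J ∈ C
  lt : b J < x
  last : ∀ j ∈ C, b j < x → b j ≤ b J
  unc : ∀ j ∈ C, ¬ (a j ≤ x ∧ x ≤ b j)

section

variable {P C : Set V} {a b : V → α} {l l' κ S κ' S' : α → ℝ} {s : ℝ} {J : V} {x : α}

lemma LastL.of_lt (h : LastL C a b J x) {y : α} (h1 : b J < y) (h2 : y < x) :
    LastL C a b J y where
  mem := h.mem
  lt := h1
  last := fun j hj hjy => h.last j hj (hjy.trans h2)
  unc := fun j hj hy => by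
    rcases lt_or_ge (b j) x with h3 | h3
    · exact absurd (h.last j hj h3) (not_le.2 (h1.trans_le hy.2))
    · exact h.unc j hj ⟨hy.1.trans h2.le, h3⟩

/-- every interval to the left of `x` begins at or before the end of `J` -/
lemma LastL.a_le (g : GStep P a b C l l' s) (h : LastL C a b J x) {i : V} (hi : i ∈ P)
    (hix : b i < x) : a i ≤ b J := by
  obtain ⟨j, hj, h1, h2⟩ := g.htouch i hi
  have h3 : b j < x := by
    rcases lt_or_ge (b j) x with h3 | h3
    · exact h3
    · exact (h.unc j hj ⟨(h2.trans_lt hix).le, h3⟩).elim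
  exact h1.trans (h.last j hj h3)

/-- growth of `κ` -/
lemma growth_κ (g : GStep P a b C l l' s) (hS : SysL P a b l κ S) (hS' : SysL P a b l' κ' S')
    (sm : Small l κ S s) (h : LastL C a b J x) :
    (∃ z, b J < z ∧ z ≤ x ∧ l z ≤ κ x) ∨ κ x + s ≤ κ' x := by
  by_cases hsat : ∃ z, b J < z ∧ z ≤ x ∧ l z ≤ κ x
  · exact Or.inl hsat
  right
  push Not at hsat
  have hz1 : ∀ z, b J < z → z ≤ x → κ x + s ≤ l' z := fun z h1 h2 =>
    (sm.h1 x z (hsat z h1 h2)).trans (g.hll z)
  have hJ : J ∈ P := g.hC h.mem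
  rcases hS.κatt x with h0 | ⟨i, hi, h1, h2⟩
  · refine hS'.κge x J _ hJ h.lt fun z h3 h4 => ?_
    rcases le_or_gt z (b J) with h5 | h5
    · have := g.hcov J h.mem z h3 h5
      have := g.hl z
      rw [h0]; linarith
    · exact hz1 z h5 h4
  · rcases le_or_gt (a J) (a i) with h3 | h3
    · refine hS'.κge x i _ hi h1 fun z h4 h5 => ?_
      rcases le_or_gt z (b J) with h6 | h6
      · have := g.hcov J h.mem z (h3.trans h4) h6
        have := h2 z h4 h5
        linarith
      · exact hz1 z h6 h5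
    · refine hS'.κge x J _ hJ h.lt fun z h4 h5 => ?_
      rcases le_or_gt z (b J) with h6 | h6
      · have := g.hcov J h.mem z h4 h6
        have := h2 z (h3.le.trans h4) h5
        linarith
      · exact hz1 z h6 h5

/-- growth of `S`, first form -/
lemma growth_S₀ [Finite α] (g : GStep P a b C l l' s) (hS : SysL P a b l κ S)
    (hS' : SysL P a b l' κ' S') (sm : Small l κ S s) (h : LastL C a b J x) :
    (∃ z, b J < z ∧ z ≤ x ∧ 2 * l z ≤ S x) ∨ S x + s ≤ S' x ∨
    ((∀ z, b J < z → z ≤ x → S x < 2 * l z) ∧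
      ∃ K ∈ P, a J < a K ∧ a K ≤ b J ∧ b J < b K ∧ b K < x ∧
      (∀ z, a K ≤ z → z ≤ x → S x ≤ 2 * l z) ∧
      (∀ w, a K ≤ w → w ≤ b K → S x ≤ l w + S w / 2) ∧
      (∃ y, b J < y ∧ y ≤ b K ∧ S x = l y + S y / 2) ∧
      (∀ y, b J < y → y ≤ b K → S x = l y + S y / 2 → ∀ w, a K ≤ w → w ≤ y → l y ≤ l w)) := by
  by_cases hsat : ∃ z, b J < z ∧ z ≤ x ∧ 2 * l z ≤ S x
  · exact Or.inl hsat
  right
  push Not at hsat
  have hmono := (hS.mono hS' le_rfl g.hll).2
  have hz1 : ∀ z, b J < z → z ≤ x → S x + s ≤ 2 * l' z := fun z h1 h2 => by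
    linarith [sm.h2 x z (hsat z h1 h2), g.hll z]
  have hJ : J ∈ P := g.hC h.mem
  have hs := g.hs
  -- use of `J` as a candidate
  have useJ : (∀ z, a J ≤ z → z ≤ b J → S x ≤ 2 * l z) →
      (∀ y, a J ≤ y → y ≤ b J → S x ≤ l y + S' y / 2) → S x + s ≤ S' x := by
    intro h1 h2
    refine hS'.Sge x J _ hJ h.lt (fun z h3 h4 => ?_) fun y h3 h4 => ?_
    · rcases le_or_gt z (b J) with h5 | h5
      · linarith [g.hcov J h.mem z h3 h5, h1 z h3 h5]
      · exact hz1 z h5 h4
    · linarith [g.hcov J h.mem y h3 h4, h2 y h3 h4]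
  rcases hS.Satt x with h0 | ⟨K, hK, h1, h2, h3⟩
  · left
    refine useJ (fun z _ _ => ?_) fun y _ _ => ?_
    · rw [h0]; linarith [g.hl z]
    · rw [h0]; linarith [g.hl y, hS'.S0 y]
  · have haK := h.a_le g hK h1
    by_cases h4 : a J < a K ∧ b J < b K
    · by_cases h5 : S x + s ≤ S' x
      · exact Or.inl h5
      right
      refine ⟨hsat, K, hK, h4.1, haK, h4.2, h1, h2, h3, ?_, ?_⟩
      · -- existence of `y`
        by_contra hcon
        push Not at hcon
        apply h5
        refine hS'.Sge x K _ hK h1 (fun z h6 h7 => ?_) fun y h6 h7 => ?_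
        · rcases le_or_gt z (b J) with h8 | h8
          · linarith [g.hcov J h.mem z (h4.1.le.trans h6) h8, h2 z h6 h7]
          · exact hz1 z h8 h7
        · rcases le_or_gt y (b J) with h8 | h8
          · linarith [g.hcov J h.mem y (h4.1.le.trans h6) h8, h3 y h6 h7, hmono y]
          · have h9 := lt_of_le_of_ne (h3 y h6 h7) (hcon y h8 h7)
            linarith [sm.h3 x y h9, g.hll y, hmono y]
      · intro y hy1 hy2 hy3
        by_contra hcon
        push Not at hcon
        obtain ⟨w, hw1, hw2, hw3⟩ := hcon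
        obtain ⟨w₀, ⟨hw4, hw5⟩, hw6⟩ := Set.exists_min_image (Set.Icc (a K) y) l
          (Set.toFinite _) ⟨w, hw1, hw2⟩
        have h6 : S w₀ ≤ S y := by
          refine hS.S_mono hw5 fun v hv1 hv2 => ?_
          linarith [hS.S_le w₀, hS.κ_le g.hab g.hl w₀, hw6 v ⟨hw4.trans hv1, hv2⟩]
        have h7 := h3 w₀ hw4 (hw5.trans hy2)
        have h8 := hw6 w ⟨hw1, hw2⟩
        linarith
    · left
      rcases le_or_gt (a K) (a J) with h5 | h5
      · refine useJ (fun z h6 h7 => h2 z (h5.trans h6) (h7.trans h.lt.le)) fun y h6 h7 => ?_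
        rcases le_or_gt y (b K) with h8 | h8
        · linarith [h3 y (h5.trans h6) h8, hmono y]
        · have h9 : S x ≤ S y := hS.Sge y K _ hK h8
            (fun z h10 h11 => h2 z h10 (h11.trans (h7.trans h.lt.le))) h3
          linarith [hmono y, h2 y (h5.trans h6) (h7.trans h.lt.le)]
      · have h6 : b K ≤ b J := by
          by_contra hcon
          exact h4 ⟨h5, not_le.1 hcon⟩
        refine hS'.Sge x K _ hK h1 (fun z h7 h8 => ?_) fun y h7 h8 => ?_
        · rcases le_or_gt z (b J) with h9 | h9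
          · linarith [g.hcov J h.mem z (h5.le.trans h7) h9, h2 z h7 h8]
          · exact hz1 z h9 h8
        · linarith [g.hcov J h.mem y (h5.le.trans h7) (h8.trans h6), h3 y h7 h8, hmono y]

/-- the deficient case in the growth of `S` -/
def Def (P : Set V) (a b : V → α) (l S : α → ℝ) (J : V) (x : α) : Prop :=
  (∀ z, b J < z → z ≤ x → S x < 2 * l z) ∧
    ∃ K ∈ P, a J < a K ∧ a K ≤ b J ∧ b K < x ∧
      (∀ w, a K ≤ w → w ≤ b K → S x ≤ l w + S w / 2) ∧
      ∃ y, b J < y ∧ y ≤ b K ∧ S x = l y + S y / 2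

/-- growth of `S` -/
lemma growth_S [Finite α] (g : GStep P a b C l l' s) (hS : SysL P a b l κ S)
    (hS' : SysL P a b l' κ' S') (sm : Small l κ S s) (h : LastL C a b J x) :
    (∃ z, b J < z ∧ z ≤ x ∧ 2 * l z ≤ S x) ∨ S x + s ≤ S' x ∨
    (Def P a b l S J x ∧ S x + s / 2 ≤ S' x) := by
  rcases growth_S₀ g hS hS' sm h with h1 | h1 | ⟨h1, K, hK, h2, h3, h4, h5, h6, h7, ⟨y, hy⟩, h8⟩
  · exact Or.inl h1
  · exact Or.inr (Or.inl h1)
  right; right
  refine ⟨⟨h1, K, hK, h2, h3, h5, h7, y, hy⟩, ?_⟩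
  have hmono := (hS.mono hS' le_rfl g.hll).2
  have hs := g.hs
  refine hS'.Sge x K _ hK h5 (fun z h9 h10 => ?_) fun w h9 h10 => ?_
  · rcases le_or_gt z (b J) with h11 | h11
    · linarith [g.hcov J h.mem z (h2.le.trans h9) h11, h6 z h9 h10]
    · linarith [sm.h2 x z (h1 z h11 h10), g.hll z]
  · rcases le_or_gt w (b J) with h11 | h11
    · linarith [g.hcov J h.mem w (h2.le.trans h9) h11, h7 w h9 h10, hmono w]
    · rcases eq_or_lt_of_le (h7 w h9 h10) with h12 | h12
      · have hwx : w < x := h10.trans_lt h5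
        have h13 := h8 w h11 h10 h12
        have hlast := h.of_lt h11 hwx
        have h14 : S w < 2 * l w := by
          have := h1 w h11 hwx.le
          linarith
        rcases growth_S₀ g hS hS' sm hlast with ⟨z, hz1, hz2, hz3⟩ | h15 |
          ⟨-, K₂, hK₂, -, h17, h18, h19, -, -, ⟨y₂, hy1, hy2, hy3⟩, -⟩
        · linarith [h13 z (h3.trans hz1.le) hz2]
        · linarith [g.hll w]
        · exfalso
          have h20 := h7 y₂ (h3.trans hy1.le) (hy2.trans (h19.le.trans h10))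
          linarith
      · linarith [sm.h3 x w h12, g.hll w, hmono w]

end

end Pool.Agent.Helper78.FF
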