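import Pool.Agent.Helper78.FF.Growth

/-!
The growth lemma: the potential grows at least as fast as the weight of the new class.
-/

namespace Pool.Agent.Helper78.FF

variable {α V : Type*} [LinearOrder α]

/-- The point `x` is good at level `v`. -/
def GoodP (l κL SL κR SR : α → ℝ) (v : ℝ) (x : α) : Prop :=
  v ≤ 2 * l x + SL x + κR x ∧ v ≤ 2 * l x + SR x + κL x ∧ 3 * v ≤ 7 * l x + 2 * SL x + 2 * SR x

/-- All points of the interval `[a i, b i]` are good at level `v`. -/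
def GoodI (a b : V → α) (l κL SL κR SR : α → ℝ) (v : ℝ) (i : V) : Prop :=
  ∀ x, a i ≤ x → x ≤ b i → GoodP l κL SL κR SR v x

lemma GoodI.dual {a b : V → α} {l κL SL κR SR : α → ℝ} {v : ℝ} {i : V}
    (h : GoodI a b l κL SL κR SR v i) : GoodI (α := αᵒᵈ) b a l κR SR κL SL v i :=
  fun x h1 h2 => ⟨(h x h2 h1).2.1, (h x h2 h1).1, by
    have := (h x h2 h1).2.2
    linarith⟩

lemma GoodI.of_dual {a b : V → α} {l κL SL κR SR : α → ℝ} {v : ℝ} {i : V}
    (h : GoodI (α := αᵒᵈ) b a l κR SR κL SL v i) : GoodI a b l κL SL κR SR v i :=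
  fun x h1 h2 => ⟨(h x h2 h1).2.1, (h x h2 h1).1, by
    have := (h x h2 h1).2.2
    linarith⟩

/-- `x` is uncovered and `J` is the first member of `C` to the right of `x` -/
structure FirstR (C : Set V) (a b : V → α) (J : V) (x : α) : Prop where
  mem : J ∈ C
  lt : x < a J
  last : ∀ j ∈ C, x < a j → a J ≤ a j
  unc : ∀ j ∈ C, ¬ (a j ≤ x ∧ x ≤ b j)

lemma FirstR.dual {C : Set V} {a b : V → α} {J : V} {x : α} (h : FirstR C a b J x) :
    LastL (α := αᵒᵈ) C b a J x where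
  mem := h.mem
  lt := h.lt
  last := h.last
  unc := fun j hj hx => h.unc j hj ⟨hx.2, hx.1⟩

/-- the deficient case on the right -/
def DefR (P : Set V) (a b : V → α) (l S : α → ℝ) (J : V) (x : α) : Prop :=
  (∀ z, z < a J → x ≤ z → S x < 2 * l z) ∧
    ∃ K ∈ P, b K < b J ∧ a J ≤ b K ∧ x < a K ∧
      (∀ w, a K ≤ w → w ≤ b K → S x ≤ l w + S w / 2) ∧
      ∃ y, y < a J ∧ a K ≤ y ∧ S x = l y + S y / 2

section

variable {P C : Set V} {a b : V → α} {l l' κ S κ' S' : α → ℝ} {s : ℝ} {J : V} {x : α}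

lemma growth_κR (g : GStep P a b C l l' s) (hS : SysR P a b l κ S) (hS' : SysR P a b l' κ' S')
    (sm : Small l κ S s) (h : FirstR C a b J x) :
    (∃ z, x ≤ z ∧ z < a J ∧ l z ≤ κ x) ∨ κ x + s ≤ κ' x := by
  rcases growth_κ g.dual hS.dual hS'.dual ⟨sm.h0, sm.h1, sm.h2, sm.h3⟩ h.dual with
    ⟨z, h1, h2, h3⟩ | h1
  · exact Or.inl ⟨z, h2, h1, h3⟩
  · exact Or.inr h1

lemma growth_SR [Finite α] (g : GStep P a b C l l' s) (hS : SysR P a b l κ S)
    (hS' : SysR P a b l' κ' S') (sm : Small l κ S s) (h : FirstR C a b J x) :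
    (∃ z, x ≤ z ∧ z < a J ∧ 2 * l z ≤ S x) ∨ S x + s ≤ S' x ∨
    (DefR P a b l S J x ∧ S x + s / 2 ≤ S' x) := by
  rcases growth_S g.dual hS.dual hS'.dual ⟨sm.h0, sm.h1, sm.h2, sm.h3⟩ h.dual with
    ⟨z, h1, h2, h3⟩ | h1 | ⟨⟨h1, K, hK, h2, h3, h4, h5, y, h6, h7, h8⟩, h9⟩
  · exact Or.inl ⟨z, h2, h1, h3⟩
  · exact Or.inr (Or.inl h1)
  · exact Or.inr (Or.inr ⟨⟨h1, K, hK, h2, h3, h4, fun w hw1 hw2 => h5 w hw2 hw1, y, h6, h7, h8⟩,
      h9⟩)

/-- Either there is a first member to the right of the uncovered point `x`, or no interval lies to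
the right of `x`. -/
lemma firstR_or [Finite V] (g : GStep P a b C l l' s) (hunc : ∀ j ∈ C, ¬ (a j ≤ x ∧ x ≤ b j)) :
    (∃ J, FirstR C a b J x) ∨ ∀ i ∈ P, ¬ x < a i := by
  by_cases h : ∃ j ∈ C, x < a j
  · left
    obtain ⟨J, ⟨hJ1, hJ2⟩, hJ3⟩ := Set.exists_min_image {j | j ∈ C ∧ x < a j} a (Set.toFinite _)
      (by obtain ⟨j, hj⟩ := h; exact ⟨j, hj⟩)
    exact ⟨J, hJ1, hJ2, fun j hj hx => hJ3 j ⟨hj, hx⟩, hunc⟩
  · right
    push Not at h
    intro i hi hx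
    obtain ⟨j, hj, h1, h2⟩ := g.htouch i hi
    exact hunc j hj ⟨h j hj, (hx.trans_le h1).le⟩

lemma SysR.zero_of_none (hS : SysR P a b l κ S) (h : ∀ i ∈ P, ¬ x < a i) : κ x = 0 ∧ S x = 0 := by
  constructor
  · rcases hS.κatt x with h0 | ⟨i, hi, h1, -⟩
    · exact h0
    · exact (h i hi h1).elim
  · rcases hS.Satt x with h0 | ⟨i, hi, h1, -⟩
    · exact h0
    · exact (h i hi h1).elim

end

/-- The whole situation of the growth lemma, to be refuted. -/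
structure Ctx (P C : Set V) (a b : V → α) (l l' κL SL κR SR κL' SL' κR' SR' : α → ℝ)
    (s v : ℝ) : Prop where
  g : GStep P a b C l l' s
  hL : SysL P a b l κL SL
  hR : SysR P a b l κR SR
  hL' : SysL P a b l' κL' SL'
  hR' : SysR P a b l' κR' SR'
  smL : Small l κL SL s
  smR : Small l κR SR s
  smA : ∀ x, v < 2 * l x + SL x + κR x → v + s ≤ 2 * l x + SL x + κR x
  smB : ∀ x, v < 2 * l x + SR x + κL x → v + s ≤ 2 * l x + SR x + κL x
  smD : ∀ x, 3 * v < 7 * l x + 2 * SL x + 2 * SR x →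
    3 * v + 3 * s ≤ 7 * l x + 2 * SL x + 2 * SR x
  no : ∀ i ∈ P, ¬ GoodI a b l' κL' SL' κR' SR' (v + s) i

section main

variable {P C : Set V} {a b : V → α} {l l' κL SL κR SR κL' SL' κR' SR' : α → ℝ} {s v : ℝ}

lemma Ctx.dual (c : Ctx P C a b l l' κL SL κR SR κL' SL' κR' SR' s v) :
    Ctx (α := αᵒᵈ) P C b a l l' κR SR κL SL κR' SR' κL' SL' s v where
  g := c.g.dual
  hL := c.hR.dual
  hR := c.hL.dual
  hL' := c.hR'.dual
  hR' := c.hL'.dual
  smL := ⟨c.smR.h0, c.smR.h1, c.smR.h2, c.smR.h3⟩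
  smR := ⟨c.smL.h0, c.smL.h1, c.smL.h2, c.smL.h3⟩
  smA := c.smB
  smB := c.smA
  smD := fun x h => by
    have h1 := c.smD x (by linarith)
    linarith
  no := fun i hi h => c.no i hi h.of_dual

variable [Finite α] [Finite V]

/-- covered good points stay good, with a gain -/
lemma Ctx.covered (c : Ctx P C a b l l' κL SL κR SR κL' SL' κR' SR' s v) {x : α} {J : V}
    (hJ : J ∈ C) (h1 : a J ≤ x) (h2 : x ≤ b J) (hx : GoodP l κL SL κR SR v x) :
    GoodP l' κL' SL' κR' SR' (v + s) x := by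
  obtain ⟨mκL, mSL⟩ := c.hL.mono c.hL' le_rfl c.g.hll
  obtain ⟨mκR, mSR⟩ := c.hR.mono c.hR' le_rfl c.g.hll
  have h3 := c.g.hcov J hJ x h1 h2
  have hs := c.g.hs
  obtain ⟨hA, hB, hD⟩ := hx
  refine ⟨?_, ?_, ?_⟩
  · linarith [mSL x, mκR x]
  · linarith [mSR x, mκL x]
  · linarith [mSL x, mSR x]

lemma Ctx.not_covered (c : Ctx P C a b l l' κL SL κR SR κL' SL' κR' SR' s v) {i J : V}
    (hi : i ∈ P) (hJ : J ∈ C) (h1 : a J ≤ a i) (h2 : b i ≤ b J)
    (hg : GoodI a b l κL SL κR SR v i) : False :=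
  c.no i hi fun x hx1 hx2 => c.covered hJ (h1.trans hx1) (hx2.trans h2) (hg x hx1 hx2)

/-- weak points -/
lemma Ctx.weak (c : Ctx P C a b l l' κL SL κR SR κL' SL' κR' SR' s v) {i : V} (hi : i ∈ P)
    (hg : GoodI a b l κL SL κR SR v i) :
    ∃ x, a i ≤ x ∧ x ≤ b i ∧ (∀ j ∈ C, ¬ (a j ≤ x ∧ x ≤ b j)) ∧
      ((2 * l x + SL x + κR x = v ∧ 2 * l' x + SL' x + κR' x < v + s) ∨
       (2 * l x + SR x + κL x = v ∧ 2 * l' x + SR' x + κL' x < v + s) ∨
       (7 * l x + 2 * SL x + 2 * SR x = 3 * v ∧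
         7 * l' x + 2 * SL' x + 2 * SR' x < 3 * v + 3 * s)) := by
  have h := c.no i hi
  unfold GoodI at h
  push Not at h
  obtain ⟨x, h1, h2, h3⟩ := h
  obtain ⟨mκL, mSL⟩ := c.hL.mono c.hL' le_rfl c.g.hll
  obtain ⟨mκR, mSR⟩ := c.hR.mono c.hR' le_rfl c.g.hll
  obtain ⟨hA, hB, hD⟩ := hg x h1 h2
  refine ⟨x, h1, h2, fun j hj hx => h3 (c.covered hj hx.1 hx.2 ⟨hA, hB, hD⟩), ?_⟩
  have hll := c.g.hll x
  by_cases hA' : 2 * l' x + SL' x + κR' x < v + s
  · left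
    refine ⟨?_, hA'⟩
    by_contra hne
    have := c.smA x (lt_of_le_of_ne hA (Ne.symm hne))
    linarith [mSL x, mκR x]
  by_cases hB' : 2 * l' x + SR' x + κL' x < v + s
  · right; left
    refine ⟨?_, hB'⟩
    by_contra hne
    have := c.smB x (lt_of_le_of_ne hB (Ne.symm hne))
    linarith [mSR x, mκL x]
  right; right
  have hD' : 7 * l' x + 2 * SL' x + 2 * SR' x < 3 * v + 3 * s := by
    by_contra hcon
    exact h3 ⟨not_lt.1 hA', not_lt.1 hB', by linarith [not_lt.1 hcon]⟩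
  refine ⟨?_, hD'⟩
  by_contra hne
  have := c.smD x (lt_of_le_of_ne hD (Ne.symm hne))
  linarith [mSL x, mSR x]

/-- no member of `P` is strictly inside -/
def InclMin (P : Set V) (a b : V → α) (i : V) : Prop :=
  ∀ k ∈ P, a i ≤ a k → b k ≤ b i → a k = a i ∧ b k = b i

omit [Finite α] in
lemma exists_inclMin {i : V} (hi : i ∈ P) :
    ∃ k ∈ P, a i ≤ a k ∧ b k ≤ b i ∧ InclMin P a b k := by
  obtain ⟨m, ⟨hm1, hm2, hm3⟩, hm4⟩ := Set.exists_max_image {k | k ∈ P ∧ a i ≤ a k ∧ b k ≤ b i} a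
    (Set.toFinite _) ⟨i, hi, le_rfl, le_rfl⟩
  obtain ⟨k, ⟨hk1, hk2, hk3⟩, hk4⟩ := Set.exists_min_image {k | k ∈ P ∧ a k = a m ∧ b k ≤ b i} b
    (Set.toFinite _) ⟨m, hm1, rfl, hm3⟩
  refine ⟨k, hk1, hm2.trans hk2.ge, hk3, fun n hn h1 h2 => ?_⟩
  have h3 := hm4 n ⟨hn, (hm2.trans hk2.ge).trans h1, h2.trans hk3⟩
  have h4 : a n = a k := le_antisymm (h3.trans hk2.ge) h1
  exact ⟨h4, le_antisymm h2 (hk4 n ⟨hn, h4.trans hk2, h2.trans hk3⟩)⟩

/-- `i` is good, inclusion-minimal, and cut from the left by `j ∈ C`. -/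
def LT (P C : Set V) (a b : V → α) (l κL SL κR SR : α → ℝ) (v : ℝ) (j i : V) : Prop :=
  i ∈ P ∧ GoodI a b l κL SL κR SR v i ∧ InclMin P a b i ∧ j ∈ C ∧ a j < a i ∧ a i ≤ b j ∧ b j < b i

/-- The leftmost situation: `I` has smallest right end among all intervals of left type, `w₀` is a
point of smallest load in `I`. -/
structure Sit (P C : Set V) (a b : V → α) (l l' κL SL κR SR κL' SL' κR' SR' : α → ℝ)
    (s v : ℝ) (I J : V) (w₀ : α) : Prop where
  c : Ctx P C a b l l' κL SL κR SR κL' SL' κR' SR' s v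
  hLT : LT P C a b l κL SL κR SR v J I
  best : ∀ i j, LT P C a b l κL SL κR SR v j i → b I ≤ b i
  w1 : a I ≤ w₀
  w2 : w₀ ≤ b I
  wmin : ∀ w, a I ≤ w → w ≤ b I → l w₀ ≤ l w

section sit

variable {I J : V} {w₀ : α}

lemma Sit.v_le (t : Sit P C a b l l' κL SL κR SR κL' SL' κR' SR' s v I J w₀) :
    v ≤ 5 * l w₀ := by
  have h1 := (t.hLT.2.1 w₀ t.w1 t.w2).1
  linarith [t.c.hL.S_le w₀, t.c.hL.κ_le t.c.g.hab t.c.g.hl w₀, t.c.hR.κ_le t.c.g.hab t.c.g.hl w₀]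

/-- candidates inside `I` do not exist -/
lemma Sit.a_lt (t : Sit P C a b l l' κL SL κR SR κL' SL' κR' SR' s v I J w₀) {k : V} {w : α}
    (hk : k ∈ P) (h1 : b k < w) (h2 : w ≤ b I) : a k < a I := by
  by_contra hcon
  have h3 := t.hLT.2.2.1 k hk (not_lt.1 hcon) (h1.le.trans h2)
  have : b I < w := h3.2 ▸ h1
  exact absurd h2 (not_le.2 this)

lemma Sit.lt_b (t : Sit P C a b l l' κL SL κR SR κL' SL' κR' SR' s v I J w₀) {k : V} {w : α}
    (hk : k ∈ P) (h1 : w < a k) (h2 : a I ≤ w) : b I < b k := by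
  by_contra hcon
  have h3 := t.hLT.2.2.1 k hk (h2.trans h1.le) (not_lt.1 hcon)
  have : w < a I := h3.1 ▸ h1
  exact absurd h2 (not_le.2 this)

lemma Sit.κL_le (t : Sit P C a b l l' κL SL κR SR κL' SL' κR' SR' s v I J w₀) {w : α}
    (h1 : w₀ ≤ w) (h2 : w ≤ b I) : κL w ≤ l w₀ := by
  rcases t.c.hL.κatt w with h0 | ⟨k, hk, h3, h4⟩
  · rw [h0]; exact t.c.g.hl w₀
  · exact h4 w₀ ((t.a_lt hk h3 h2).le.trans t.w1) h1

lemma Sit.κR_le (t : Sit P C a b l l' κL SL κR SR κL' SL' κR' SR' s v I J w₀) {w : α}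
    (h1 : w ≤ w₀) (h2 : a I ≤ w) : κR w ≤ l w₀ := by
  rcases t.c.hR.κatt w with h0 | ⟨k, hk, h3, h4⟩
  · rw [h0]; exact t.c.g.hl w₀
  · exact h4 w₀ h1 (t.w2.trans (t.lt_b hk h3 h2).le)

lemma Sit.SR_mono (t : Sit P C a b l l' κL SL κR SR κL' SL' κR' SR' s v I J w₀) {w : α}
    (h1 : w ≤ w₀) (h2 : a I ≤ w) : SR w₀ ≤ SR w := by
  refine t.c.hR.S_mono h1 fun z h3 h4 => ?_
  linarith [t.c.hR.S_le w₀, t.c.hR.κ_le t.c.g.hab t.c.g.hl w₀,
    t.wmin z (h2.trans h3) (h4.trans t.w2)]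

/-- `h_R ≥ (v - u₀)/2` on `I` -/
lemma Sit.hR_ge (t : Sit P C a b l l' κL SL κR SR κL' SL' κR' SR' s v I J w₀) {w : α}
    (h1 : a I ≤ w) (h2 : w ≤ b I) : v - l w₀ ≤ 2 * l w + SR w := by
  rcases le_total w₀ w with h3 | h3
  · have h4 := (t.hLT.2.1 w h1 h2).2.1
    linarith [t.κL_le h3 h2]
  · have h4 := (t.hLT.2.1 w₀ t.w1 t.w2).2.1
    linarith [t.κL_le le_rfl t.w2, t.SR_mono h3 h1, t.wmin w h1 h2]

/-- goodness of intervals that reach `J` with load and left potential large -/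
lemma Sit.good_of (t : Sit P C a b l l' κL SL κR SR κL' SL' κR' SR' s v I J w₀) {K : V}
    (hK1 : a K ≤ b J) (hK2 : b K < b I)
    (h1 : ∀ z, a K ≤ z → z ≤ b J → l w₀ ≤ l z)
    (h2 : ∀ y, a K ≤ y → y ≤ b K → v - l w₀ ≤ 2 * l y + SL y) :
    GoodI a b l κL SL κR SR v K := by
  intro y hy1 hy2
  rcases le_or_gt (a I) y with h3 | h3
  · exact t.hLT.2.1 y h3 (hy2.trans hK2.le)
  obtain ⟨hIP, hIg, hImin, hJ, hJ1, hJ2, hJ3⟩ := t.hLT
  have hl5 := t.v_le
  have hld : ∀ z, y ≤ z → z ≤ b I → l w₀ ≤ l z := fun z hz1 hz2 => by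
    rcases le_or_gt (a I) z with h4 | h4
    · exact t.wmin z h4 hz2
    · exact h1 z (hy1.trans hz1) (h4.le.trans hJ2)
  have hκR : l w₀ ≤ κR y := t.c.hR.κge y I _ hIP h3 hld
  have hSR : (v - l w₀) / 2 ≤ SR y := by
    refine t.c.hR.Sge y I _ hIP h3 (fun z hz1 hz2 => ?_) fun w hw1 hw2 => ?_
    · linarith [hld z hz1 hz2]
    · linarith [t.hR_ge hw1 hw2]
  have hly : l w₀ ≤ l y := hld y le_rfl (h3.le.trans (hJ2.trans hJ3.le))
  have hSL := h2 y hy1 hy2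
  have hκL := t.c.hL.S_le y
  refine ⟨?_, ?_, ?_⟩
  · linarith
  · linarith
  · linarith

/-- (★) -/
lemma Sit.star (t : Sit P C a b l l' κL SL κR SR κL' SL' κR' SR' s v I J w₀) {K : V} {x : α}
    (hx : LastL C a b J x) (hx2 : x ≤ b I)
    (hK : K ∈ P) (hK1 : a K ≤ b J) (hK2 : b K < x)
    (h1 : ∀ z, a K ≤ z → z ≤ b J → l w₀ ≤ l z)
    (h2 : ∀ y, a K ≤ y → y ≤ b K → v - l w₀ ≤ 2 * l y + SL y) : False := by
  have hg := t.good_of hK1 (hK2.trans_le hx2) h1 h2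
  have hC := t.c.g.hC
  obtain ⟨hIP, hIg, hImin, hJ, hJ1, hJ2, hJ3⟩ := t.hLT
  have hl5 := t.v_le
  rcases le_or_gt (a J) (a K) with h3 | h3
  · rcases le_or_gt (b K) (b J) with h4 | h4
    · exact t.c.not_covered hK hJ h3 h4 hg
    · -- `K` sticks out of `J` to the right
      rcases eq_or_lt_of_le h3 with h5 | h5
      · -- `J ⊆ K`
        refine t.c.not_covered (hC hJ) hJ le_rfl le_rfl fun y hy1 hy2 => ?_
        exact hg y (h5 ▸ hy1) (hy2.trans h4.le)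
      obtain ⟨k, hk, hk1, hk2, hk3⟩ := exists_inclMin (a := a) (b := b) hK
      have hkg : GoodI a b l κL SL κR SR v k := fun y hy1 hy2 =>
        hg y (hk1.trans hy1) (hy2.trans hk2)
      obtain ⟨j, hj, hj1, hj2⟩ := t.c.g.htouch k hk
      have hjx : b j < x := by
        by_contra hcon
        exact hx.unc j hj ⟨(hj2.trans (hk2.trans hK2.le)), not_lt.1 hcon⟩
      have hjJ := hx.last j hj hjx
      have hjJ' : j = J := by
        by_contra hne
        rcases t.c.g.hdis j hj J hJ hne with h6 | h6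
        · exact absurd (hj1.trans_lt (h6.trans (h5.trans_le hk1))) (lt_irrefl _)
        · exact absurd hjJ (not_le.2 (h6.trans_le (t.c.g.hab j (hC hj))))
      subst hjJ'
      have hlt : a j < a k := h5.trans_le hk1
      have hbk : b j < b k := by
        by_contra hcon
        exact t.c.not_covered hk hj hlt.le (not_lt.1 hcon) hkg
      have := t.best k j ⟨hk, hkg, hk3, hj, hlt, hj1, hbk⟩
      exact absurd this (not_le.2 (hk2.trans_lt (hK2.trans_le hx2)))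
  · -- `K` begins before `J`: use `J`
    have hJP := hC hJ
    have hgJ : GoodI a b l κL SL κR SR v J := by
      refine t.good_of (t.c.g.hab J hJP) hJ3 (fun z hz1 hz2 => h1 z (h3.le.trans hz1) hz2)
        fun y hy1 hy2 => ?_
      rcases le_or_gt y (b K) with h4 | h4
      · exact h2 y (h3.le.trans hy1) h4
      · have h5 : (v - l w₀) / 2 ≤ SL y := by
          refine t.c.hL.Sge y K _ hK h4 (fun z hz1 hz2 => ?_) fun w hw1 hw2 => ?_
          · linarith [h1 z hz1 (hz2.trans hy2)]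
          · linarith [h2 w hw1 hw2]
        linarith [h1 y (h3.le.trans hy1) hy2]
    exact t.c.not_covered hJP hJ le_rfl le_rfl hgJ

lemma Sit.v_pos (t : Sit P C a b l l' κL SL κR SR κL' SL' κR' SR' s v I J w₀) : 0 < v := by
  by_contra hcon
  have hJ := t.hLT.2.2.2.1
  refine t.c.not_covered (t.c.g.hC hJ) hJ le_rfl le_rfl fun y _ _ => ?_
  have h1 := t.c.g.hl y
  have h2 := t.c.hL.S0 y
  have h3 := t.c.hR.S0 y
  have h4 := t.c.hL.κ0 y
  have h5 := t.c.hR.κ0 y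
  refine ⟨?_, ?_, ?_⟩ <;> linarith

/-- (T) -/
lemma Sit.takeover (t : Sit P C a b l l' κL SL κR SR κL' SL' κR' SR' s v I J w₀) {x : α}
    (hx : LastL C a b J x) (hx2 : x ≤ b I) (h1 : l w₀ ≤ κL x) (h2 : v - l w₀ ≤ 2 * SL x) :
    False := by
  have hv := t.v_pos
  have hv5 := t.v_le
  rcases t.c.hL.κatt x with h0 | ⟨K₁, hK₁, h3, h4⟩
  · linarith
  have ha₁ := hx.a_le t.c.g hK₁ h3
  have h5 : ∀ z, a K₁ ≤ z → z ≤ b J → l w₀ ≤ l z := fun z hz1 hz2 =>
    h1.trans (h4 z hz1 (hz2.trans hx.lt.le))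
  rcases t.c.hL.Satt x with h0 | ⟨K₂, hK₂, h6, h7, h8⟩
  · refine t.star hx hx2 hK₁ ha₁ h3 h5 fun y hy1 hy2 => ?_
    linarith [t.c.g.hl y, t.c.hL.S0 y]
  have ha₂ := hx.a_le t.c.g hK₂ h6
  rcases le_or_gt (a K₁) (a K₂) with h9 | h9
  · refine t.star hx hx2 hK₂ ha₂ h6 (fun z hz1 hz2 => h5 z (h9.trans hz1) hz2) fun y hy1 hy2 => ?_
    linarith [h8 y hy1 hy2]
  · refine t.star hx hx2 hK₁ ha₁ h3 h5 fun y hy1 hy2 => ?_
    rcases le_or_gt y (b K₂) with h10 | h10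
    · linarith [h8 y (h9.le.trans hy1) h10]
    · have h11 : SL x ≤ SL y := t.c.hL.Sge y K₂ _ hK₂ h10
        (fun z hz1 hz2 => h7 z hz1 (hz2.trans (hy2.trans h3.le))) h8
      have h12 := h4 y hy1 (hy2.trans h3.le)
      linarith

/-- (B) -/
lemma Sit.caseB (t : Sit P C a b l l' κL SL κR SR κL' SL' κR' SR' s v I J w₀) {x : α}
    (hx : LastL C a b J x) (hx2 : x ≤ b I) (hB : 2 * l x + SR x + κL x = v)
    (hsat : ∃ z, b J < z ∧ z ≤ x ∧ l z ≤ κL x)
    (hgr : SR' x < SR x + s ∨ l x ≤ κL x) : False := by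
  obtain ⟨hIP, hIg, hImin, hJ, hJ1, hJ2, hJ3⟩ := t.hLT
  have hx1 : a I ≤ x := hJ2.trans hx.lt.le
  obtain ⟨z₀, hz1, hz2, hz3⟩ := hsat
  have hz4 : l w₀ ≤ l z₀ := t.wmin z₀ (hJ2.trans hz1.le) (hz2.trans hx2)
  have hlx : l w₀ ≤ l x := t.wmin x hx1 hx2
  have hDx := (hIg x hx1 hx2).2.2
  rcases le_total x w₀ with h1 | h1
  · -- `x ≤ w₀`
    have h2 := t.SR_mono h1 hx1
    have h3 := t.κL_le le_rfl t.w2
    have h4 := (hIg w₀ t.w1 t.w2).2.1
    exact t.takeover hx hx2 (by linarith) (by linarith)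
  · have h3 := t.κL_le h1 hx2
    -- `κL x = l w₀`
    rcases eq_or_lt_of_le hlx with h4 | h4
    · exact t.takeover hx hx2 (by linarith) (by linarith)
    have h5 : SR' x < SR x + s := by
      rcases hgr with h5 | h5
      · exact h5
      · linarith
    have hz5 : z₀ < x := by
      rcases eq_or_lt_of_le hz2 with h6 | h6
      · subst h6; linarith
      · exact h6
    have hz6 : a I ≤ z₀ := hJ2.trans hz1.le
    have h6 := (hIg z₀ hz6 (hz5.le.trans hx2)).2.1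
    have h7 := t.c.hL.κ_le t.c.g.hab t.c.g.hl z₀
    have h8 : SR x < SR z₀ := by linarith
    rcases t.c.hR.Satt z₀ with h0 | ⟨M, hM, hM1, hM2, hM3⟩
    · linarith [t.c.hR.S0 x]
    have hM4 : a M ≤ x := by
      by_contra hcon
      have := t.c.hR.Sge x M _ hM (not_le.1 hcon) (fun z hz hz' => hM2 z (hz5.le.trans hz) hz') hM3
      linarith
    -- the member of `C` met by `M` is to the right of `x`
    obtain ⟨j, hj, hj1, hj2⟩ := t.c.g.htouch M hM
    have hxj : x < a j := by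
      by_contra hcon
      rcases lt_or_ge (b j) x with h9 | h9
      · exact absurd ((hx.last j hj h9).trans_lt (hz1.trans hM1)) (not_lt.2 hj1)
      · exact hx.unc j hj ⟨not_lt.1 hcon, h9⟩
    rcases firstR_or t.c.g hx.unc with ⟨JR, hJR⟩ | hnone
    · have h9 := hJR.last j hj hxj
      rcases growth_SR t.c.g t.c.hR t.c.hR' t.c.smR hJR with ⟨z, hz, hz', hz''⟩ | h10 |
        ⟨⟨-, K, hK, -, hK2, hK3, -, y, hy1, hy2, hy3⟩, -⟩
      · linarith [hM2 z (hz5.le.trans hz) (hz'.le.trans (h9.trans hj2))]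
      · linarith
      · have := hM3 y (hM4.trans (hK3.le.trans hy2)) (hy1.le.trans (h9.trans hj2))
        linarith
    · exact hnone j (t.c.g.hC hj) hxj

/-- (A), saturated case -/
lemma Sit.caseA (t : Sit P C a b l l' κL SL κR SR κL' SL' κR' SR' s v I J w₀) {x : α}
    (hx : LastL C a b J x) (hx2 : x ≤ b I) (hA : 2 * l x + SL x + κR x = v)
    (hsat : ∃ z, b J < z ∧ z ≤ x ∧ 2 * l z ≤ SL x) : False := by
  obtain ⟨hIP, hIg, hImin, hJ, hJ1, hJ2, hJ3⟩ := t.hLT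
  have hx1 : a I ≤ x := hJ2.trans hx.lt.le
  obtain ⟨z₀, hz1, hz2, hz3⟩ := hsat
  have hz4 : l w₀ ≤ l z₀ := t.wmin z₀ (hJ2.trans hz1.le) (hz2.trans hx2)
  have hlx : l w₀ ≤ l x := t.wmin x hx1 hx2
  have hBx := (hIg x hx1 hx2).2.1
  have hSκ := t.c.hL.S_le x
  have hSκR := t.c.hR.S_le x
  have hv5 := t.v_le
  rcases le_total x w₀ with h1 | h1
  · -- `x ≤ w₀`
    have h2 := (hIg w₀ t.w1 t.w2).1
    have h3 := t.c.hL.S_le w₀
    have h4 := t.c.hL.κ_le t.c.g.hab t.c.g.hl w₀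
    have h5 : κR w₀ ≤ κR x := by
      refine t.c.hR.κ_mono h1 fun z hz hz' => ?_
      exact (t.κR_le le_rfl t.w1).trans (t.wmin z (hx1.trans hz) (hz'.trans t.w2))
    have h6 := t.c.hL.κ_le t.c.g.hab t.c.g.hl x
    exact t.takeover hx hx2 (by linarith) (by linarith)
  · have h3 := t.κL_le h1 hx2
    exact t.takeover hx hx2 (by linarith) (by linarith)

/-- (A), deficient case -/
lemma Sit.caseA_def (t : Sit P C a b l l' κL SL κR SR κL' SL' κR' SR' s v I J w₀) {x : α}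
    (hx : LastL C a b J x) (hx2 : x ≤ b I) (hA : 2 * l x + SL x + κR x = v)
    (hdef : Def P a b l SL J x) (hgr : κR' x < κR x + s) : False := by
  obtain ⟨hIP, hIg, hImin, hJ, hJ1, hJ2, hJ3⟩ := t.hLT
  obtain ⟨hunsat, K, hK, hK1, hK2, hK3, hK4, y, hy1, hy2, hy3⟩ := hdef
  have hyx : y < x := hy2.trans_lt hK3
  have h1 := (hIg y (hJ2.trans hy1.le) (hyx.le.trans hx2)).1
  have h2 := hunsat x hx.lt le_rfl
  have h3 : κR x < κR y := by linarith
  rcases t.c.hR.κatt y with h0 | ⟨M, hM, hM1, hM2⟩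
  · linarith [t.c.hR.κ0 x]
  have hM4 : a M ≤ x := by
    by_contra hcon
    have := t.c.hR.κge x M _ hM (not_le.1 hcon) (fun z hz hz' => hM2 z (hyx.le.trans hz) hz')
    linarith
  obtain ⟨j, hj, hj1, hj2⟩ := t.c.g.htouch M hM
  have hxj : x < a j := by
    by_contra hcon
    rcases lt_or_ge (b j) x with h9 | h9
    · exact absurd ((hx.last j hj h9).trans_lt (hy1.trans hM1)) (not_lt.2 hj1)
    · exact hx.unc j hj ⟨not_lt.1 hcon, h9⟩
  rcases firstR_or t.c.g hx.unc with ⟨JR, hJR⟩ | hnone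
  · have h9 := hJR.last j hj hxj
    rcases growth_κR t.c.g t.c.hR t.c.hR' t.c.smR hJR with ⟨z, hz, hz', hz''⟩ | h10
    · linarith [hM2 z (hyx.le.trans hz) (hz'.le.trans (h9.trans hj2))]
    · linarith
  · exact hnone j (t.c.g.hC hj) hxj

/-- (D), deficient case -/
lemma Sit.caseD_def (t : Sit P C a b l l' κL SL κR SR κL' SL' κR' SR' s v I J w₀) {x : α}
    (hx : LastL C a b J x) (hx2 : x ≤ b I) (hD : 7 * l x + 2 * SL x + 2 * SR x = 3 * v)
    (hdef : Def P a b l SL J x) : False := by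
  obtain ⟨hIP, hIg, hImin, hJ, hJ1, hJ2, hJ3⟩ := t.hLT
  obtain ⟨hunsat, K, hK, hK1, hK2, hK3, hK4, y, hy1, hy2, hy3⟩ := hdef
  have hyx : y < x := hy2.trans_lt hK3
  have hx1 : a I ≤ x := hJ2.trans hx.lt.le
  have h1 := (hIg y (hJ2.trans hy1.le) (hyx.le.trans hx2)).1
  have hBx := (hIg x hx1 hx2).2.1
  have h2 : κR y ≤ l x := by
    rcases t.c.hR.κatt y with h0 | ⟨M, hM, hM1, hM2⟩
    · rw [h0]; exact t.c.g.hl x
    · refine hM2 x hyx.le ?_
      by_contra hcon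
      obtain ⟨j, hj, hj1, hj2⟩ := t.c.g.htouch M hM
      rcases lt_or_ge (b j) x with h9 | h9
      · exact absurd ((hx.last j hj h9).trans_lt (hy1.trans hM1)) (not_lt.2 hj1)
      · exact hx.unc j hj ⟨hj2.trans (not_le.1 hcon).le, h9⟩
  have h3 := t.c.hL.κ_le t.c.g.hab t.c.g.hl x
  have h4 : l x ≤ κL x := by linarith
  exact t.caseB hx hx2 (by linarith) ⟨x, hx.lt, le_rfl, h4⟩ (Or.inr h4)

/-- the final contradiction in the left situation -/
lemma Sit.false (t : Sit P C a b l l' κL SL κR SR κL' SL' κR' SR' s v I J w₀) : False := by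
  obtain ⟨hIP, hIg, hImin, hJ, hJ1, hJ2, hJ3⟩ := t.hLT
  obtain ⟨x, hx1, hx2, hunc, hcases⟩ := t.c.weak hIP hIg
  have hJx : b J < x := by
    by_contra hcon
    exact hunc J hJ ⟨(hJ1.trans_le hx1).le, not_lt.1 hcon⟩
  have hx : LastL C a b J x := by
    refine ⟨hJ, hJx, fun j hj hjx => ?_, hunc⟩
    by_contra hcon
    have hne : j ≠ J := fun h => hcon (h ▸ le_rfl)
    have hjP := t.c.g.hC hj
    rcases t.c.g.hdis j hj J hJ hne with h6 | h6
    · exact hcon (h6.le.trans (t.c.g.hab J (t.c.g.hC hJ)))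
    · refine t.c.not_covered hjP hj le_rfl le_rfl fun y hy1 hy2 => ?_
      exact hIg y (hJ2.trans (h6.le.trans hy1)) (hy2.trans (hjx.le.trans hx2))
  obtain ⟨mκL, mSL⟩ := t.c.hL.mono t.c.hL' le_rfl t.c.g.hll
  obtain ⟨mκR, mSR⟩ := t.c.hR.mono t.c.hR' le_rfl t.c.g.hll
  have hll := t.c.g.hll x
  obtain ⟨hAx, hBx, hDx⟩ := hIg x hx1 hx2
  have hκL := t.c.hL.κ_le t.c.g.hab t.c.g.hl x
  have hκR := t.c.hR.κ_le t.c.g.hab t.c.g.hl x
  have hSL := t.c.hL.S_le x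
  have hSR := t.c.hR.S_le x
  rcases hcases with ⟨hA, hA'⟩ | ⟨hB, hB'⟩ | ⟨hD, hD'⟩
  · rcases growth_S t.c.g t.c.hL t.c.hL' t.c.smL hx with h1 | h1 | ⟨h1, -⟩
    · exact t.caseA hx hx2 hA h1
    · linarith [mκR x]
    · exact t.caseA_def hx hx2 hA h1 (by linarith [mSL x])
  · rcases growth_κ t.c.g t.c.hL t.c.hL' t.c.smL hx with h1 | h1
    · exact t.caseB hx hx2 hB h1 (Or.inl (by linarith [mκL x]))
    · linarith [mSR x]
  · rcases growth_S t.c.g t.c.hL t.c.hL' t.c.smL hx with h1 | h1 | ⟨h1, -⟩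
    · -- left saturated
      obtain ⟨z, hz1, hz2, hz3⟩ := h1
      have h2 : SL x = 2 * κL x := by
        have : κL x ≤ l z := by
          rcases t.c.hL.κatt x with h0 | ⟨k, hk, hk1, hk2⟩
          · rw [h0]; exact t.c.g.hl z
          · exact hk2 z ((hx.a_le t.c.g hk hk1).trans hz1.le) hz2
        linarith
      exact t.caseA hx hx2 (by linarith) ⟨z, hz1, hz2, hz3⟩
    · -- left grows, so the right is saturated
      have h2 : SR x = 2 * κR x := by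
        rcases firstR_or t.c.g hunc with ⟨JR, hJR⟩ | hnone
        · rcases growth_SR t.c.g t.c.hR t.c.hR' t.c.smR hJR with ⟨z, hz1, hz2, hz3⟩ | h3 | ⟨-, h3⟩
          · have : κR x ≤ l z := by
              rcases t.c.hR.κatt x with h0 | ⟨k, hk, hk1, hk2⟩
              · rw [h0]; exact t.c.g.hl z
              · exact hk2 z hz1 (hz2.le.trans (hJR.dual.a_le t.c.g.dual hk hk1))
            linarith
          · linarith [t.c.g.hs]
          · linarith
        · have := t.c.hR.zero_of_none hnone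
          linarith [this.1, this.2]
      have h3 : l x ≤ κL x := by linarith
      exact t.caseB hx hx2 (by linarith) ⟨x, hx.lt, le_rfl, h3⟩ (Or.inr h3)
    · exact t.caseD_def hx hx2 hD h1

end sit

end main

end Pool.Agent.Helper78.FF
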