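import Mathlib

/-!
Left potentials of a family of intervals on a finite linear order, for the analysis of First-Fit.
-/

namespace Pool.Agent.Helper78.FF

variable {α V : Type*} [LinearOrder α]

/-- `κ` and `S` are the left potentials of the intervals `[a i, b i]`, `i ∈ P`, for the load `l`:
`κ x` is the maximum of `0` and of `min_[a i, x] l` over the `i ∈ P` with `b i < x`;
`S x` is the maximum of `0` and of the minimum of `2 min_[a i, x] l` and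
`min_[a i, b i] (l + S / 2)` over the same `i`. -/
structure SysL (P : Set V) (a b : V → α) (l κ S : α → ℝ) : Prop where
  κ0 : ∀ x, 0 ≤ κ x
  S0 : ∀ x, 0 ≤ S x
  κge : ∀ x i c, i ∈ P → b i < x → (∀ z, a i ≤ z → z ≤ x → c ≤ l z) → c ≤ κ x
  κatt : ∀ x, κ x = 0 ∨ ∃ i ∈ P, b i < x ∧ ∀ z, a i ≤ z → z ≤ x → κ x ≤ l z
  Sge : ∀ x i c, i ∈ P → b i < x → (∀ z, a i ≤ z → z ≤ x → c ≤ 2 * l z) →
    (∀ y, a i ≤ y → y ≤ b i → c ≤ l y + S y / 2) → c ≤ S x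
  Satt : ∀ x, S x = 0 ∨ ∃ i ∈ P, b i < x ∧ (∀ z, a i ≤ z → z ≤ x → S x ≤ 2 * l z) ∧
    (∀ y, a i ≤ y → y ≤ b i → S x ≤ l y + S y / 2)

/-- The mirror image of `SysL`. -/
structure SysR (P : Set V) (a b : V → α) (l κ S : α → ℝ) : Prop where
  κ0 : ∀ x, 0 ≤ κ x
  S0 : ∀ x, 0 ≤ S x
  κge : ∀ x i c, i ∈ P → x < a i → (∀ z, x ≤ z → z ≤ b i → c ≤ l z) → c ≤ κ x
  κatt : ∀ x, κ x = 0 ∨ ∃ i ∈ P, x < a i ∧ ∀ z, x ≤ z → z ≤ b i → κ x ≤ l z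
  Sge : ∀ x i c, i ∈ P → x < a i → (∀ z, x ≤ z → z ≤ b i → c ≤ 2 * l z) →
    (∀ y, a i ≤ y → y ≤ b i → c ≤ l y + S y / 2) → c ≤ S x
  Satt : ∀ x, S x = 0 ∨ ∃ i ∈ P, x < a i ∧ (∀ z, x ≤ z → z ≤ b i → S x ≤ 2 * l z) ∧
    (∀ y, a i ≤ y → y ≤ b i → S x ≤ l y + S y / 2)

lemma SysR.dual {P : Set V} {a b : V → α} {l κ S : α → ℝ} (h : SysR P a b l κ S) :
    SysL (α := αᵒᵈ) P b a l κ S where
  κ0 := h.κ0
  S0 := h.S0
  κge := fun x i c hi hx hz => h.κge x i c hi hx fun z h1 h2 => hz z h2 h1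
  κatt := fun x => (h.κatt x).imp id fun ⟨i, hi, h1, h2⟩ => ⟨i, hi, h1, fun z h3 h4 => h2 z h4 h3⟩
  Sge := fun x i c hi hx hz hy => h.Sge x i c hi hx (fun z h1 h2 => hz z h2 h1)
    fun y h1 h2 => hy y h2 h1
  Satt := fun x => (h.Satt x).imp id fun ⟨i, hi, h1, h2, h3⟩ =>
    ⟨i, hi, h1, fun z h4 h5 => h2 z h5 h4, fun y h4 h5 => h3 y h5 h4⟩

lemma SysL.dual {P : Set V} {a b : V → α} {l κ S : α → ℝ} (h : SysL P a b l κ S) :
    SysR (α := αᵒᵈ) P b a l κ S where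
  κ0 := h.κ0
  S0 := h.S0
  κge := fun x i c hi hx hz => h.κge x i c hi hx fun z h1 h2 => hz z h2 h1
  κatt := fun x => (h.κatt x).imp id fun ⟨i, hi, h1, h2⟩ => ⟨i, hi, h1, fun z h3 h4 => h2 z h4 h3⟩
  Sge := fun x i c hi hx hz hy => h.Sge x i c hi hx (fun z h1 h2 => hz z h2 h1)
    fun y h1 h2 => hy y h2 h1
  Satt := fun x => (h.Satt x).imp id fun ⟨i, hi, h1, h2, h3⟩ =>
    ⟨i, hi, h1, fun z h4 h5 => h2 z h5 h4, fun y h4 h5 => h3 y h5 h4⟩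

lemma SysR.of_dual {P : Set V} {a b : V → α} {l κ S : α → ℝ}
    (h : SysL (α := αᵒᵈ) P b a l κ S) : SysR P a b l κ S where
  κ0 := h.κ0
  S0 := h.S0
  κge := fun x i c hi hx hz => h.κge x i c hi hx fun z h1 h2 => hz z h2 h1
  κatt := fun x => (h.κatt x).imp id fun ⟨i, hi, h1, h2⟩ => ⟨i, hi, h1, fun z h3 h4 => h2 z h4 h3⟩
  Sge := fun x i c hi hx hz hy => h.Sge x i c hi hx (fun z h1 h2 => hz z h2 h1)
    fun y h1 h2 => hy y h2 h1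
  Satt := fun x => (h.Satt x).imp id fun ⟨i, hi, h1, h2, h3⟩ =>
    ⟨i, hi, h1, fun z h4 h5 => h2 z h5 h4, fun y h4 h5 => h3 y h5 h4⟩

section basic

variable {P : Set V} {a b : V → α} {l κ S : α → ℝ}

lemma SysL.κ_le (h : SysL P a b l κ S) (hab : ∀ i ∈ P, a i ≤ b i) (hl : ∀ x, 0 ≤ l x) (x : α) :
    κ x ≤ l x := by
  rcases h.κatt x with h0 | ⟨i, hi, h1, h2⟩
  · rw [h0]; exact hl x
  · exact h2 x ((hab i hi).trans h1.le) le_rfl

lemma SysL.S_le (h : SysL P a b l κ S) (x : α) : S x ≤ 2 * κ x := by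
  rcases h.Satt x with h0 | ⟨i, hi, h1, h2, -⟩
  · rw [h0]; linarith [h.κ0 x]
  · have := h.κge x i (S x / 2) hi h1 fun z h3 h4 => by linarith [h2 z h3 h4]
    linarith

lemma SysR.κ_le (h : SysR P a b l κ S) (hab : ∀ i ∈ P, a i ≤ b i) (hl : ∀ x, 0 ≤ l x) (x : α) :
    κ x ≤ l x :=
  h.dual.κ_le hab hl x

lemma SysR.S_le (h : SysR P a b l κ S) (x : α) : S x ≤ 2 * κ x := h.dual.S_le x

lemma SysL.mono [WellFoundedLT α] {P' : Set V} {l' κ' S' : α → ℝ} (h : SysL P a b l κ S)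
    (h' : SysL P' a b l' κ' S') (hP : P ⊆ P') (hl : ∀ x, l x ≤ l' x) :
    (∀ x, κ x ≤ κ' x) ∧ ∀ x, S x ≤ S' x := by
  constructor
  · intro x
    rcases h.κatt x with h0 | ⟨i, hi, h1, h2⟩
    · rw [h0]; exact h'.κ0 x
    · exact h'.κge x i _ (hP hi) h1 fun z h3 h4 => (h2 z h3 h4).trans (hl z)
  · intro x
    induction x using WellFoundedLT.induction with
    | ind x ih =>
      rcases h.Satt x with h0 | ⟨i, hi, h1, h2, h3⟩
      · rw [h0]; exact h'.S0 x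
      · refine h'.Sge x i _ (hP hi) h1 (fun z h4 h5 => ?_) fun y h4 h5 => ?_
        · linarith [h2 z h4 h5, hl z]
        · linarith [h3 y h4 h5, hl y, ih y (h5.trans_lt h1)]

lemma SysR.mono [WellFoundedGT α] {P' : Set V} {l' κ' S' : α → ℝ} (h : SysR P a b l κ S)
    (h' : SysR P' a b l' κ' S') (hP : P ⊆ P') (hl : ∀ x, l x ≤ l' x) :
    (∀ x, κ x ≤ κ' x) ∧ ∀ x, S x ≤ S' x :=
  h.dual.mono h'.dual hP hl

/-- transport of the left potential to the right, over a stretch of large load -/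
lemma SysL.S_mono (h : SysL P a b l κ S) {z y : α} (hzy : z ≤ y)
    (hw : ∀ w, z ≤ w → w ≤ y → S z ≤ 2 * l w) : S z ≤ S y := by
  rcases h.Satt z with h0 | ⟨i, hi, h1, h2, h3⟩
  · rw [h0]; exact h.S0 y
  · refine h.Sge y i _ hi (h1.trans_le hzy) (fun w h4 h5 => ?_) h3
    rcases le_total w z with h6 | h6
    · exact h2 w h4 h6
    · exact hw w h6 h5

lemma SysL.κ_mono (h : SysL P a b l κ S) {z y : α} (hzy : z ≤ y)
    (hw : ∀ w, z ≤ w → w ≤ y → κ z ≤ l w) : κ z ≤ κ y := by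
  rcases h.κatt z with h0 | ⟨i, hi, h1, h2⟩
  · rw [h0]; exact h.κ0 y
  · refine h.κge y i _ hi (h1.trans_le hzy) (fun w h4 h5 => ?_)
    rcases le_total w z with h6 | h6
    · exact h2 w h4 h6
    · exact hw w h6 h5

lemma SysR.S_mono (h : SysR P a b l κ S) {z y : α} (hzy : y ≤ z)
    (hw : ∀ w, y ≤ w → w ≤ z → S z ≤ 2 * l w) : S z ≤ S y :=
  h.dual.S_mono (z := z) (y := y) hzy fun w h1 h2 => hw w h2 h1

lemma SysR.κ_mono (h : SysR P a b l κ S) {z y : α} (hzy : y ≤ z)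
    (hw : ∀ w, y ≤ w → w ≤ z → κ z ≤ l w) : κ z ≤ κ y :=
  h.dual.κ_mono (z := z) (y := y) hzy fun w h1 h2 => hw w h2 h1

end basic

section existence

/-- A finite union of down-sets, each with a violated bound at `M`, has a bound below `M`. -/
lemma exists_lt_bound [Finite V] {T : V → ℝ → Prop} {M : ℝ} (hM : 0 < M)
    (h : ∀ i, ∃ q < M, ∀ c, T i c → c ≤ q) :
    ∃ q < M, 0 ≤ q ∧ ∀ i c, T i c → c ≤ q := by
  classical
  cases nonempty_fintype V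
  choose q hq1 hq2 using h
  rcases isEmpty_or_nonempty V with hV | hV
  · exact ⟨0, hM, le_rfl, fun i => (hV.false i).elim⟩
  · obtain ⟨i₀, -, hi₀⟩ := Finset.exists_max_image (Finset.univ : Finset V) q Finset.univ_nonempty
    refine ⟨max 0 (q i₀), max_lt hM (hq1 i₀), le_max_left _ _, fun i c hc => ?_⟩
    exact (hq2 i c hc).trans ((hi₀ i (Finset.mem_univ i)).trans (le_max_right _ _))

/-- maximum of `0` and of finitely many closed half lines -/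
lemma exists_max_val [Finite V] (T : V → ℝ → Prop) (B : ℝ) (hB : ∀ i c, T i c → c ≤ B)
    (hcl : ∀ i M, ¬ T i M → ∃ q < M, ∀ c, T i c → c ≤ q) :
    ∃ M : ℝ, 0 ≤ M ∧ (∀ i c, T i c → c ≤ M) ∧ (M = 0 ∨ ∃ i, T i M) := by
  set U : Set ℝ := insert 0 {c | ∃ i, T i c} with hU
  have hbdd : BddAbove U := by
    refine ⟨max 0 B, ?_⟩
    rintro c (rfl | ⟨i, hi⟩)
    · exact le_max_left _ _
    · exact (hB i c hi).trans (le_max_right _ _)
  have h0 : 0 ≤ sSup U := le_csSup hbdd (by simp [hU])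
  refine ⟨sSup U, h0, fun i c hc => le_csSup hbdd (by simp only [hU]; exact Or.inr ⟨i, hc⟩), ?_⟩
  by_contra hcon
  push Not at hcon
  have hpos : 0 < sSup U := lt_of_le_of_ne h0 (Ne.symm hcon.1)
  obtain ⟨q, hq1, hq0, hq2⟩ := exists_lt_bound hpos fun i => hcl i _ (hcon.2 i)
  have : sSup U ≤ q := by
    refine csSup_le ⟨0, by simp [hU]⟩ ?_
    rintro c (rfl | ⟨i, hi⟩)
    · exact hq0
    · exact hq2 i c hi
  linarith

variable [Finite V] [WellFoundedLT α]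

lemma exists_κ (P : Set V) (a b : V → α) (hab : ∀ i ∈ P, a i ≤ b i) (l : α → ℝ) :
    ∃ κ : α → ℝ, (∀ x, 0 ≤ κ x) ∧
      (∀ x i c, i ∈ P → b i < x → (∀ z, a i ≤ z → z ≤ x → c ≤ l z) → c ≤ κ x) ∧
      (∀ x, κ x = 0 ∨ ∃ i ∈ P, b i < x ∧ ∀ z, a i ≤ z → z ≤ x → κ x ≤ l z) := by
  have key : ∀ x : α, ∃ M : ℝ, 0 ≤ M ∧
      (∀ i c, (i ∈ P ∧ b i < x ∧ ∀ z, a i ≤ z → z ≤ x → c ≤ l z) → c ≤ M) ∧
      (M = 0 ∨ ∃ i, i ∈ P ∧ b i < x ∧ ∀ z, a i ≤ z → z ≤ x → M ≤ l z) := by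
    intro x
    refine exists_max_val (fun i c => i ∈ P ∧ b i < x ∧ ∀ z, a i ≤ z → z ≤ x → c ≤ l z) (l x)
      (fun i c h => h.2.2 x ((hab i h.1).trans h.2.1.le) le_rfl) ?_
    intro i M hM
    by_cases hi : i ∈ P ∧ b i < x
    · simp only [not_and, not_forall, not_le] at hM
      obtain ⟨z, h1, h2, h3⟩ := hM hi.1 hi.2
      exact ⟨l z, h3, fun c hc => hc.2.2 z h1 h2⟩
    · exact ⟨M - 1, by linarith, fun c hc => (hi ⟨hc.1, hc.2.1⟩).elim⟩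
  choose κ h1 h2 h3 using key
  exact ⟨κ, h1, fun x i c hi hx hz => h2 x i c ⟨hi, hx, hz⟩, fun x => (h3 x).imp id
    fun ⟨i, h⟩ => ⟨i, h.1, h.2.1, h.2.2⟩⟩

lemma exists_S (P : Set V) (a b : V → α) (hab : ∀ i ∈ P, a i ≤ b i) (l : α → ℝ) :
    ∃ S : α → ℝ, (∀ x, 0 ≤ S x) ∧
      (∀ x i c, i ∈ P → b i < x → (∀ z, a i ≤ z → z ≤ x → c ≤ 2 * l z) →
        (∀ y, a i ≤ y → y ≤ b i → c ≤ l y + S y / 2) → c ≤ S x) ∧
      (∀ x, S x = 0 ∨ ∃ i ∈ P, b i < x ∧ (∀ z, a i ≤ z → z ≤ x → S x ≤ 2 * l z) ∧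
        (∀ y, a i ≤ y → y ≤ b i → S x ≤ l y + S y / 2)) := by
  have key : ∀ (x : α) (f : ∀ y, y < x → ℝ), ∃ M : ℝ, 0 ≤ M ∧
      (∀ i c, (i ∈ P ∧ (∀ z, a i ≤ z → z ≤ x → c ≤ 2 * l z) ∧
        ∃ h : b i < x, ∀ y, ∀ (_ : a i ≤ y) (h2 : y ≤ b i), c ≤ l y + f y (h2.trans_lt h) / 2) →
          c ≤ M) ∧
      (M = 0 ∨ ∃ i, i ∈ P ∧ (∀ z, a i ≤ z → z ≤ x → M ≤ 2 * l z) ∧
        ∃ h : b i < x, ∀ y, ∀ (_ : a i ≤ y) (h2 : y ≤ b i),
          M ≤ l y + f y (h2.trans_lt h) / 2) := by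
    intro x f
    refine exists_max_val (fun i c => i ∈ P ∧ (∀ z, a i ≤ z → z ≤ x → c ≤ 2 * l z) ∧
        ∃ h : b i < x, ∀ y, ∀ (_ : a i ≤ y) (h2 : y ≤ b i), c ≤ l y + f y (h2.trans_lt h) / 2)
      (2 * l x) (fun i c h => h.2.1 x ((hab i h.1).trans h.2.2.fst.le) le_rfl) ?_
    intro i M hM
    by_cases hi : i ∈ P ∧ b i < x
    · by_cases hz : ∀ z, a i ≤ z → z ≤ x → M ≤ 2 * l z
      · have : ¬ ∀ y, ∀ (_ : a i ≤ y) (h2 : y ≤ b i), M ≤ l y + f y (h2.trans_lt hi.2) / 2 :=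
          fun hy => hM ⟨hi.1, hz, hi.2, hy⟩
        simp only [not_forall, not_le] at this
        obtain ⟨y, h1, h2, h3⟩ := this
        exact ⟨_, h3, fun c hc => hc.2.2.snd y h1 h2⟩
      · simp only [not_forall, not_le] at hz
        obtain ⟨z, h1, h2, h3⟩ := hz
        exact ⟨_, h3, fun c hc => hc.2.1 z h1 h2⟩
    · exact ⟨M - 1, by linarith, fun c hc => (hi ⟨hc.1, hc.2.2.fst⟩).elim⟩
  choose F h1 h2 h3 using key
  set S : α → ℝ := (wellFounded_lt (α := α)).fix F with hS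
  have hSeq : ∀ x, S x = F x fun y _ => S y := fun x =>
    (wellFounded_lt (α := α)).fix_eq F x
  refine ⟨S, fun x => ?_, fun x i c hi hx hz hy => ?_, fun x => ?_⟩
  · rw [hSeq]; exact h1 x _
  · rw [hSeq]
    exact h2 x _ i c ⟨hi, hz, hx, fun y h4 h5 => hy y h4 h5⟩
  · rcases h3 x (fun y _ => S y) with h | ⟨i, hi, hz, hx, hy⟩
    · left; rw [hSeq]; exact h
    · right
      refine ⟨i, hi, hx, fun z h4 h5 => ?_, fun y h4 h5 => ?_⟩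
      · rw [hSeq]; exact hz z h4 h5
      · have := hy y h4 h5
        rw [← hSeq] at this
        exact this

theorem exists_sysL (P : Set V) (a b : V → α) (hab : ∀ i ∈ P, a i ≤ b i) (l : α → ℝ) :
    ∃ κ S : α → ℝ, SysL P a b l κ S := by
  obtain ⟨κ, h1, h2, h3⟩ := exists_κ P a b hab l
  obtain ⟨S, h4, h5, h6⟩ := exists_S P a b hab l
  exact ⟨κ, S, h1, h4, h2, h3, h5, h6⟩

end existence

theorem exists_sysR [Finite V] [WellFoundedGT α] (P : Set V) (a b : V → α)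
    (hab : ∀ i ∈ P, a i ≤ b i) (l : α → ℝ) :
    ∃ κ S : α → ℝ, SysR P a b l κ S := by
  obtain ⟨κ, S, h⟩ := exists_sysL (α := αᵒᵈ) P b a hab l
  exact ⟨κ, S, SysR.of_dual h⟩

end Pool.Agent.Helper78.FF
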