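import Pool.Agent.Helper78.FF.Cont

/-!
Walls of intervals: a colour supported by all smaller colours is at most `5` times the clique
number.
-/

namespace Pool.Agent.Helper78.FF

open Finset

/-- Walls over a finite linear order. -/
theorem wall_fin {α V : Type*} [LinearOrder α] [Finite α] [Fintype V] {a b : V → α}
    {col : V → ℕ} (hab : ∀ v, a v ≤ b v)
    (hproper : ∀ v w, v ≠ w → col v = col w → b v < a w ∨ b w < a v)
    (hsupp : ∀ v s, 1 ≤ s → s < col v → ∃ w, col w = s ∧ a v ≤ b w ∧ a w ≤ b v)
    (K : ℕ) (hK : ∀ x : α, ∀ s : Finset V, (∀ v ∈ s, a v ≤ x ∧ x ≤ b v) → s.card ≤ K)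
    (v₀ : V) (h₀ : 1 ≤ col v₀) : col v₀ ≤ 5 * K := by
  classical
  set m := col v₀ with hm
  set F : ℕ → α → Finset V := fun t x =>
    univ.filter fun v => m < col v + t ∧ col v ≤ m ∧ a v ≤ x ∧ x ≤ b v with hF
  set P : ℕ → Set V := fun t => {v | m < col v + t ∧ col v ≤ m} with hP
  have key : ∀ t, 1 ≤ t → t ≤ m → GoodAt (P t) a b (fun x => ((F t x).card : ℝ)) t := by
    intro t ht
    induction t, ht using Nat.le_induction with
    | base =>
      intro _
      have hv₀ : v₀ ∈ P 1 := by simp [hP, hm]
      have := GoodAt.base (l := fun x => ((F 1 x).card : ℝ)) hv₀ (fun i _ => hab i)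
        (fun x h1 h2 => by
          have : v₀ ∈ F 1 x := by simp [hF, hm, h1, h2]
          exact_mod_cast card_pos.2 ⟨v₀, this⟩)
      simpa using this
    | succ t ht ih =>
      intro htm
      have h1 := ih (by omega)
      have hsub : P t ⊆ P (t + 1) := fun v hv => ⟨by have := hv.1; omega, hv.2⟩
      have h2 := h1.mono hsub fun i _ => hab i
      set C : Set V := {v | col v + t = m} with hC
      set cov : α → ℝ := fun x => if ∃ v ∈ C, a v ≤ x ∧ x ≤ b v then 1 else 0 with hcov
      have h3 := h2.grow (C := C) (cov := cov) (fun i _ => hab i) (fun x => by positivity)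
        (fun v hv => by
          have hv : col v + t = m := hv
          exact ⟨by omega, by omega⟩)
        (fun i hi j hj hij => hproper i j hij (by
          have hi : col i + t = m := hi
          have hj : col j + t = m := hj
          omega))
        (fun i hi => by
          have hi1 : m < col i + (t + 1) := hi.1
          have hi2 : col i ≤ m := hi.2
          rcases eq_or_lt_of_le (show m ≤ col i + t by omega) with h | h
          · exact ⟨i, h.symm, hab i, hab i⟩
          · obtain ⟨w, hw1, hw2, hw3⟩ := hsupp i (m - t) (by omega) (by omega)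
            exact ⟨w, show col w + t = m by omega, hw2, hw3⟩)
        (fun j hj x hx1 hx2 => by
          simp only [hcov]
          rw [if_pos ⟨j, hj, hx1, hx2⟩])
        (fun x => by simp only [hcov]; split_ifs <;> norm_num)
      have h4 : (fun x => ((F t x).card : ℝ) + cov x) = fun x => ((F (t + 1) x).card : ℝ) := by
        funext x
        by_cases hx : ∃ v ∈ C, a v ≤ x ∧ x ≤ b v
        · obtain ⟨v, hv, hx1, hx2⟩ := hx
          have hv' : col v + t = m := hv
          have h5 : F (t + 1) x = insert v (F t x) := by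
            ext w
            simp only [hF, mem_filter, mem_univ, true_and, mem_insert]
            constructor
            · rintro ⟨h6, h7, h8, h9⟩
              by_cases hwt : m < col w + t
              · exact Or.inr ⟨hwt, h7, h8, h9⟩
              · left
                by_contra hne
                rcases hproper w v hne (by omega) with h10 | h10
                · exact absurd (h9.trans_lt (h10.trans_le hx1)) (lt_irrefl _)
                · exact absurd (hx2.trans_lt (h10.trans_le h8)) (lt_irrefl _)
            · rintro (rfl | ⟨h6, h7, h8, h9⟩)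
              · exact ⟨by omega, by omega, hx1, hx2⟩
              · exact ⟨by omega, h7, h8, h9⟩
          have h6 : v ∉ F t x := by
            simp only [hF, mem_filter, mem_univ, true_and, not_and]
            intro h7
            omega
          rw [h5, card_insert_of_notMem h6]
          simp only [hcov]
          rw [if_pos ⟨v, hv, hx1, hx2⟩]
          push_cast
          ring
        · have h5 : F (t + 1) x = F t x := by
            ext w
            simp only [hF, mem_filter, mem_univ, true_and]
            constructor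
            · rintro ⟨h6, h7, h8, h9⟩
              refine ⟨?_, h7, h8, h9⟩
              by_contra hwt
              exact hx ⟨w, show col w + t = m by omega, h8, h9⟩
            · rintro ⟨h6, h7, h8, h9⟩
              exact ⟨by omega, h7, h8, h9⟩
          rw [h5]
          simp only [hcov]
          rw [if_neg hx, add_zero]
      rw [h4] at h3
      simpa using h3
  obtain ⟨x, hx⟩ := (key m h₀ le_rfl).bound (fun i _ => hab i) fun x => by positivity
  have h5 : (F m x).card ≤ K := hK x (F m x) fun v hv => by
    simp only [hF, mem_filter, mem_univ, true_and] at hv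
    exact hv.2.2
  have h6 : (m : ℝ) ≤ 5 * K := hx.trans (by
    have : ((F m x).card : ℝ) ≤ K := by exact_mod_cast h5
    linarith)
  exact_mod_cast h6

/-- Walls of real intervals. -/
theorem wall_real {V : Type*} [Fintype V] {a b : V → ℝ} {col : V → ℕ} (hab : ∀ v, a v ≤ b v)
    (hproper : ∀ v w, v ≠ w → col v = col w →
      ¬ (Set.Icc (a v) (b v) ∩ Set.Icc (a w) (b w)).Nonempty)
    (hsupp : ∀ v s, 1 ≤ s → s < col v → ∃ w, col w = s ∧
      (Set.Icc (a v) (b v) ∩ Set.Icc (a w) (b w)).Nonempty)
    (K : ℕ) (hK : ∀ x : ℝ, ∀ s : Finset V, (∀ v ∈ s, x ∈ Set.Icc (a v) (b v)) → s.card ≤ K)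
    (v₀ : V) (h₀ : 1 ≤ col v₀) : col v₀ ≤ 5 * K := by
  classical
  set A : Finset ℝ := univ.image a with hA
  have haA : ∀ v, a v ∈ A := fun v => mem_image_of_mem a (mem_univ v)
  have hne : ∀ v, (A.filter fun x => x ≤ b v).Nonempty := fun v =>
    ⟨a v, mem_filter.2 ⟨haA v, hab v⟩⟩
  set a' : V → A := fun v => ⟨a v, haA v⟩ with ha'
  set b' : V → A := fun v => ⟨(A.filter fun x => x ≤ b v).max' (hne v),
    (mem_filter.1 (max'_mem _ (hne v))).1⟩ with hb'
  have hle : ∀ (x : A) (v : V), x ≤ b' v ↔ (x : ℝ) ≤ b v := by
    intro x v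
    constructor
    · intro h
      have h1 : (x : ℝ) ≤ (A.filter fun x => x ≤ b v).max' (hne v) := h
      exact h1.trans (mem_filter.1 (max'_mem _ (hne v))).2
    · intro h
      exact Subtype.coe_le_coe.1 (le_max' _ _ (mem_filter.2 ⟨x.2, h⟩))
  have hge : ∀ (x : A) (v : V), a' v ≤ x ↔ a v ≤ (x : ℝ) := fun x v => Iff.rfl
  have hmeet : ∀ v w, (Set.Icc (a v) (b v) ∩ Set.Icc (a w) (b w)).Nonempty ↔
      a' v ≤ b' w ∧ a' w ≤ b' v := by
    intro v w
    rw [hle, hle]
    constructor
    · rintro ⟨x, ⟨h1, h2⟩, h3, h4⟩
      exact ⟨h1.trans h4, h3.trans h2⟩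
    · rintro ⟨h1, h2⟩
      exact ⟨max (a v) (a w), ⟨le_max_left _ _, max_le (hab v) h2⟩,
        le_max_right _ _, max_le h1 (hab w)⟩
  refine wall_fin (a := a') (b := b') (fun v => (hle _ _).2 (hab v)) (fun v w hvw hc => ?_)
    (fun v s h1 h2 => ?_) K (fun x s hs => hK x s fun v hv => ?_) v₀ h₀
  · have := hproper v w hvw hc
    rw [hmeet] at this
    by_contra hcon
    push Not at hcon
    exact this ⟨hcon.2, hcon.1⟩
  · obtain ⟨w, hw1, hw2⟩ := hsupp v s h1 h2
    rw [hmeet] at hw2
    exact ⟨w, hw1, hw2⟩
  · exact ⟨(hge _ _).1 (hs v hv).1, (hle _ _).1 (hs v hv).2⟩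

end Pool.Agent.Helper78.FF
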